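import Mathlib

set_option autoImplicit false

namespace Pool.Agent.Results.MP_21a573_al.UnipotentCone

open Matrix Matrix.ProjGenLinGroup Matrix.GeneralLinearGroup
open scoped MatrixGroups

/-- `U` is the group of `F`-points of the unipotent radical of a proper parabolic (that is, Borel)
subgroup of `PGL 2` defined over `F`: a conjugate of the upper unitriangular group. -/
def IsRadical {F : Type} [Field F] (U : Set PGL(2, F)) : Prop :=
  ∃ h : PGL(2, F), U = {u | ∃ t : F, u = h * mk (upperRightHom t) * h⁻¹}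

/-- cuspidal functions on `PGL 2 F` -/
def IsCuspidal {F : Type} [Field F] (φ : PGL(2, F) → ℂ) : Prop :=
  ∀ (g : PGL(2, F)) (U : Set PGL(2, F)), IsRadical U → ∑ᶠ u ∈ U, φ (g * u) = 0

/-- The `F`-points of the Zariski closure of the conjugacy class of the image of `x` in `PGL 2`
over the algebraic closure: `y` belongs to it when every polynomial in the matrix entries that
vanishes on all matrices representing conjugates of `x` vanishes on the representatives of `y`. -/
def classClosure (F : Type) [Field F] (x : GL (Fin 2) (AlgebraicClosure F)) : Set PGL(2, F) :=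
  {y | ∀ g : GL (Fin 2) F, mk g = y →
    ∀ P : MvPolynomial (Fin 2 × Fin 2) (AlgebraicClosure F),
      (∀ (h : GL (Fin 2) (AlgebraicClosure F)) (c : (AlgebraicClosure F)ˣ),
        MvPolynomial.eval (fun ij => (c : AlgebraicClosure F) * (h * x * h⁻¹) ij.1 ij.2) P = 0) →
      MvPolynomial.eval (fun ij => algebraMap F (AlgebraicClosure F) (g ij.1 ij.2)) P = 0}

/-- The restriction of `f` to `O` lies in the space `S_w(O)`. -/
def IsWeaklyCuspidalOn {F : Type} [Field F] (O : Set PGL(2, F)) (f : PGL(2, F) → ℂ) : Prop :=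
  ∀ (g : PGL(2, F)) (U : Set PGL(2, F)), IsRadical U → (∀ u ∈ U, g * u ∈ O) →
    ∑ᶠ u ∈ U, f (g * u) = 0

section aux

variable {F : Type} [Field F]

lemma sum_radical [Fintype F] (h : GL (Fin 2) F) (ψ : PGL(2, F) → ℂ) :
    ∑ᶠ u ∈ {u | ∃ t : F, u = mk h * mk (upperRightHom t) * (mk h)⁻¹}, ψ u =
      ∑ t : F, ψ (mk (h * upperRightHom t * h⁻¹)) := by
  have e : {u | ∃ t : F, u = mk h * mk (upperRightHom t) * (mk h)⁻¹} =
      Set.range (fun t : F => mk (h * upperRightHom t * h⁻¹)) := by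
    ext u; simp [eq_comm]
  rw [e, finsum_mem_range, finsum_eq_sum_of_fintype]
  intro s t hst
  simp only [map_mul, map_inv, mul_left_inj, mul_right_inj] at hst
  obtain ⟨c, hc⟩ := mk_eq_mk_iff.1 hst
  have h0 := congrArg (fun m : GL (Fin 2) F => m 0 0) hc
  have h1 := congrArg (fun m : GL (Fin 2) F => m 0 1) hc
  simp [Matrix.mul_apply, Fin.sum_univ_two] at h0 h1
  simpa [h0] using h1

/-- the basic right-`U`-invariant function -/
noncomputable def Fm (χ : MulChar F ℂ) (x : GL (Fin 2) F) : ℂ :=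
  χ ((x 1 0) ^ 2 * ((x : Matrix (Fin 2) (Fin 2) F).det)⁻¹)

noncomputable def ep (χ : MulChar F ℂ) (x : GL (Fin 2) F) : ℂ :=
  χ ((x : Matrix (Fin 2) (Fin 2) F).det) ^ 2

open Classical in
noncomputable def Phi [Fintype F] (χ : MulChar F ℂ) (x : GL (Fin 2) F) : ℂ :=
  ∑ g : GL (Fin 2) F, ep χ g * Fm χ (g * x * g⁻¹)

lemma Fm_mul_u (χ : MulChar F ℂ) (x : GL (Fin 2) F) (t : F) :
    Fm χ (x * upperRightHom t) = Fm χ x := by
  simp [Fm, Matrix.mul_apply, Fin.sum_univ_two, Matrix.det_fin_two]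

lemma Fm_scalar (χ : MulChar F ℂ) (x : GL (Fin 2) F) (c : Fˣ) :
    Fm χ (x * scalar (Fin 2) c) = Fm χ x := by
  have hc : (c : F) ≠ 0 := c.ne_zero
  have hd : (x : Matrix (Fin 2) (Fin 2) F).det ≠ 0 := x.det_ne_zero
  simp only [Fm, Units.val_mul, Matrix.det_mul]
  congr 1
  simp [Matrix.mul_apply, Fin.sum_univ_two]
  field_simp

lemma ep_mul (χ : MulChar F ℂ) (x y : GL (Fin 2) F) : ep χ (x * y) = ep χ x * ep χ y := by
  simp [ep, mul_pow]

lemma chi4 {χ : MulChar F ℂ} (h4 : χ ^ 4 = 1) {a : F} (ha : a ≠ 0) : χ a ^ 4 = 1 := by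
  have := congrArg (fun c : MulChar F ℂ => c a) h4
  simp only [MulChar.pow_apply' _ (by norm_num : (4 : ℕ) ≠ 0)] at this
  rw [this, MulChar.one_apply (IsUnit.mk0 a ha)]

lemma ep_sq {χ : MulChar F ℂ} (h4 : χ ^ 4 = 1) (x : GL (Fin 2) F) : ep χ x * ep χ x = 1 := by
  rw [ep, ← pow_add]
  exact chi4 h4 x.det_ne_zero

lemma Phi_conj [Fintype F] {χ : MulChar F ℂ} (h4 : χ ^ 4 = 1) (h x : GL (Fin 2) F) :
    Phi χ (h * x * h⁻¹) = ep χ h * Phi χ x := by
  classical
  unfold Phi
  rw [Finset.mul_sum]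
  refine Fintype.sum_equiv (Equiv.mulRight h) _ _ fun g => ?_
  simp only [Equiv.coe_mulRight, ep_mul, _root_.mul_inv_rev, mul_assoc]
  rw [mul_left_comm (ep χ h), ← mul_assoc (ep χ h), ep_sq h4, one_mul]

lemma Phi_scalar [Fintype F] (χ : MulChar F ℂ) (x : GL (Fin 2) F) (c : Fˣ) :
    Phi χ (x * scalar (Fin 2) c) = Phi χ x := by
  classical
  unfold Phi
  refine Finset.sum_congr rfl fun g _ => ?_
  have : g * (x * scalar (Fin 2) c) * g⁻¹ = g * x * g⁻¹ * scalar (Fin 2) c := by
    have hc : scalar (Fin 2) c ∈ Subgroup.center (GL (Fin 2) F) := by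
      rw [GeneralLinearGroup.center_eq_range_scalar]; exact ⟨c, rfl⟩
    have := Subgroup.mem_center_iff.1 hc g⁻¹
    simp only [mul_assoc, this]
  rw [this, Fm_scalar]

lemma Phi_u [Fintype F] {χ : MulChar F ℂ} (h4 : χ ^ 4 = 1) :
    Phi χ (upperRightHom (1 : F)) ≠ 0 := by
  classical
  have key : ∀ g : GL (Fin 2) F, ep χ g * Fm χ (g * upperRightHom (1 : F) * g⁻¹) =
      ((if g 1 0 = 0 then 0 else 1 : ℕ) : ℂ) := by
    intro g
    have hd : (g : Matrix (Fin 2) (Fin 2) F).det ≠ 0 := g.det_ne_zero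
    have e1 : ((g * upperRightHom (1 : F) * g⁻¹ : GL (Fin 2) F) :
        Matrix (Fin 2) (Fin 2) F).det = 1 := by
      simp [Matrix.det_fin_two (A := !![(1 : F), 1; 0, 1]), hd]
    have e2 : (g * upperRightHom (1 : F) * g⁻¹ : GL (Fin 2) F) 1 0 =
        - (g 1 0) ^ 2 * ((g : Matrix (Fin 2) (Fin 2) F).det)⁻¹ := by
      simp only [Units.val_mul, Matrix.coe_units_inv, Matrix.inv_def, Matrix.adjugate_fin_two,
        Ring.inverse_eq_inv']
      simp [Matrix.mul_apply, Fin.sum_univ_two]
      ring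
    rw [Fm, e1, e2, ep]
    split_ifs with h0
    · simp [h0, MulChar.map_zero]
    · have : (-(g 1 0) ^ 2 * ((g : Matrix (Fin 2) (Fin 2) F).det)⁻¹) ^ 2 * (1 : F)⁻¹ =
          (g 1 0) ^ 4 * (((g : Matrix (Fin 2) (Fin 2) F).det)⁻¹) ^ 2 := by ring
      rw [this, map_mul, map_pow, map_pow, chi4 h4 h0, one_mul, ← mul_pow, ← map_mul,
        mul_inv_cancel₀ hd]
      simp
  unfold Phi
  simp only [key]
  rw [← Nat.cast_sum, Nat.cast_ne_zero]
  intro h
  rw [Finset.sum_eq_zero_iff] at h
  have := h (GeneralLinearGroup.mkOfDetNeZero !![0, 1; 1, 0] (by simp)) (Finset.mem_univ _)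
  simp at this

lemma orth [Fintype F] (χ : MulChar F ℂ) {φ : PGL(2, F) → ℂ} (hφ : IsCuspidal φ)
    [Fintype (GL (Fin 2) F)] :
    ∑ x : GL (Fin 2) F, Phi χ x * φ (mk x) = 0 := by
  classical
  have key : ∀ g : GL (Fin 2) F, ∑ x : GL (Fin 2) F, Fm χ (g * x * g⁻¹) * φ (mk x) = 0 := by
    intro g
    have h1 : ∀ t : F, ∑ x : GL (Fin 2) F, Fm χ (g * x * g⁻¹) * φ (mk x) =
        ∑ x : GL (Fin 2) F, Fm χ (g * x * g⁻¹) * φ (mk x * mk (g⁻¹ * upperRightHom t * g⁻¹⁻¹)) := by
      intro t
      symm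
      refine Fintype.sum_equiv (Equiv.mulRight (g⁻¹ * upperRightHom t * g⁻¹⁻¹)) _ _ fun x => ?_
      simp only [Equiv.coe_mulRight, map_mul]
      rw [← Fm_mul_u χ _ t]
      congr 2
      group
    have h2 : (Fintype.card F : ℂ) * ∑ x : GL (Fin 2) F, Fm χ (g * x * g⁻¹) * φ (mk x) = 0 := by
      calc _ = ∑ t : F, ∑ x : GL (Fin 2) F, Fm χ (g * x * g⁻¹) * φ (mk x) := by simp
        _ = ∑ t : F, ∑ x : GL (Fin 2) F,
            Fm χ (g * x * g⁻¹) * φ (mk x * mk (g⁻¹ * upperRightHom t * g⁻¹⁻¹)) :=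
          Finset.sum_congr rfl fun t _ => h1 t
        _ = 0 := by
          rw [Finset.sum_comm]
          refine Finset.sum_eq_zero fun x _ => ?_
          rw [← Finset.mul_sum, ← sum_radical g⁻¹ (fun u => φ (mk x * u)),
            hφ (mk x) _ ⟨mk g⁻¹, rfl⟩, mul_zero]
    simpa using h2
  unfold Phi
  simp only [Finset.sum_mul]
  rw [Finset.sum_comm]
  refine Finset.sum_eq_zero fun g _ => ?_
  simp only [mul_assoc (ep χ g)]
  rw [← Finset.mul_sum, key, mul_zero]

lemma Phi_zero_of_comm [Fintype F] {χ : MulChar F ℂ} (h4 : χ ^ 4 = 1) {ν : F}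
    (hν : χ ν ^ 2 ≠ 1) {x : GL (Fin 2) F} (m : Matrix (Fin 2) (Fin 2) F) (hν0 : ν ≠ 0)
    (hm : m.det = ν) (hc : m * (x : Matrix (Fin 2) (Fin 2) F) = x * m) : Phi χ x = 0 := by
  let h : GL (Fin 2) F := GeneralLinearGroup.mkOfDetNeZero m (hm ▸ hν0)
  have e : h * x * h⁻¹ = x := by
    rw [mul_inv_eq_iff_eq_mul]
    exact Units.ext hc
  have := Phi_conj h4 h x
  rw [e] at this
  have he : ep χ h = χ ν ^ 2 := by simp [ep, h, hm]
  rw [he] at this
  have h2 : (1 - χ ν ^ 2) * Phi χ x = 0 := by linear_combination this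
  rcases mul_eq_zero.1 h2 with h3 | h3
  · exact absurd (sub_eq_zero.1 h3).symm hν
  · exact h3

lemma supp [Fintype F] (hq : Fintype.card F % 2 = 1) {χ : MulChar F ℂ} (h4 : χ ^ 4 = 1) {ν : F}
    (hν : χ ν ^ 2 ≠ 1) (hν0 : ν ≠ 0) {x : GL (Fin 2) F} (hx : Phi χ x ≠ 0) :
    ∃ (h : GL (Fin 2) F) (c : Fˣ), x = h * upperRightHom (1 : F) * h⁻¹ * scalar (Fin 2) c := by
  have h2 : (2 : F) ≠ 0 := by
    intro h
    have := FiniteField.even_card_of_char_two (F := F) ((ringChar.spec F 2).1 (by exact_mod_cast h)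
      |> fun hd => by
        rcases (Nat.dvd_prime Nat.prime_two).1 hd with h1 | h1
        · exact absurd h1 (CharP.ringChar_ne_one)
        · exact h1)
    omega
  set a := x 0 0 with ha
  set b := x 0 1 with hb
  set c := x 1 0 with hc
  set d := x 1 1 with hd
  have hx' : (x : Matrix (Fin 2) (Fin 2) F) = !![a, b; c, d] := by
    ext i j; fin_cases i <;> fin_cases j <;> rfl
  have hdet : a * d - b * c ≠ 0 := by
    have := x.det_ne_zero
    rwa [Matrix.det_fin_two] at this
  by_cases hD : (a - d) ^ 2 + 4 * b * c = 0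
  · have htr : a + d ≠ 0 := by
      intro h
      apply hdet
      have : (2 : F) ^ 2 * (a * d - b * c) = 0 := by
        linear_combination (a + d) * h - hD
      simpa [h2] using this
    have hl : (a + d) / 2 ≠ 0 := div_ne_zero htr h2
    by_cases hc0 : c = 0
    · have had : a = d := by
        have : (a - d) ^ 2 = 0 := by simpa [hc0] using hD
        exact sub_eq_zero.1 (pow_eq_zero_iff (by norm_num) |>.1 this)
      have ha0 : a ≠ 0 := by
        intro h; apply htr; rw [← had, h]; ring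
      by_cases hb0 : b = 0
      · exfalso
        apply hx
        refine Phi_zero_of_comm h4 hν !![ν, 0; 0, 1] hν0 (by simp) ?_
        rw [hx', hb0, hc0, had]
        simp [mul_comm]
      · refine ⟨GeneralLinearGroup.mkOfDetNeZero !![b, 0; 0, a] (by simp [hb0, ha0]),
          Units.mk0 a ha0, ?_⟩
        have hcs : scalar (Fin 2) (Units.mk0 a ha0) ∈ Subgroup.center (GL (Fin 2) F) := by
          rw [GeneralLinearGroup.center_eq_range_scalar]; exact ⟨_, rfl⟩
        rw [mul_assoc, Subgroup.mem_center_iff.1 hcs, ← mul_assoc, eq_mul_inv_iff_mul_eq]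
        apply Units.ext
        simp only [Units.val_mul, hx']
        ext i j
        fin_cases i <;> fin_cases j <;>
          simp [Matrix.mul_apply, Fin.sum_univ_two, hc0, ← had, mul_comm]
    · refine ⟨GeneralLinearGroup.mkOfDetNeZero !![(a - d) / 2, (a + d) / 2; c, 0]
        (by simp [hc0, htr, h2]), Units.mk0 _ hl, ?_⟩
      have hcs : scalar (Fin 2) (Units.mk0 _ hl) ∈ Subgroup.center (GL (Fin 2) F) := by
        rw [GeneralLinearGroup.center_eq_range_scalar]; exact ⟨_, rfl⟩
      rw [mul_assoc, Subgroup.mem_center_iff.1 hcs, ← mul_assoc, eq_mul_inv_iff_mul_eq]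
      apply Units.ext
      simp only [Units.val_mul, hx']
      ext i j
      fin_cases i <;> fin_cases j <;> simp [Matrix.mul_apply, Fin.sum_univ_two]
      · field_simp
        linear_combination hD
      · left
        field_simp
        ring
      · field_simp
        ring
  · exfalso
    apply hx
    obtain ⟨s, r, hsr⟩ := FiniteField.exists_root_sum_quadratic
      (f := Polynomial.X ^ 2 - Polynomial.C (4 * ν))
      (g := Polynomial.C (-((a - d) ^ 2 + 4 * b * c)) * Polynomial.X ^ 2)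
      (Polynomial.degree_X_pow_sub_C (by norm_num) _)
      (Polynomial.degree_C_mul_X_pow 2 (neg_ne_zero.2 hD)) hq
    simp only [Polynomial.eval_sub, Polynomial.eval_pow, Polynomial.eval_X, Polynomial.eval_C,
      Polynomial.eval_mul] at hsr
    refine Phi_zero_of_comm h4 hν
      !![(s + r * (a - d)) / 2, r * b; r * c, (s - r * (a - d)) / 2] hν0 ?_ ?_
    · rw [Matrix.det_fin_two_of]
      field_simp
      linear_combination hsr
    · rw [hx']
      ext i j
      fin_cases i <;> fin_cases j <;> simp [Matrix.mul_apply, Fin.sum_univ_two] <;> field_simp <;>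
        ring

lemma sum_u [Fintype F] {χ : MulChar F ℂ} (h4 : χ ^ 4 = 1) {ν : F}
    (hν : χ ν ^ 2 ≠ 1) (hν0 : ν ≠ 0) : ∑ t : F, Phi χ (upperRightHom t) = 0 := by
  let h : GL (Fin 2) F := GeneralLinearGroup.mkOfDetNeZero !![ν, 0; 0, 1] (by simp [hν0])
  have he : ep χ h = χ ν ^ 2 := by simp [ep, h]
  have e : ∀ t : F, h * upperRightHom t * h⁻¹ = upperRightHom (ν * t) := by
    intro t
    rw [mul_inv_eq_iff_eq_mul]
    apply Units.ext
    ext i j
    fin_cases i <;> fin_cases j <;> simp [h, Matrix.mul_apply, Fin.sum_univ_two]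
  have h1 : ∑ t : F, Phi χ (upperRightHom (ν * t)) = ∑ t : F, Phi χ (upperRightHom t) :=
    Fintype.sum_equiv (Equiv.mulLeft₀ ν hν0) _ _ fun t => rfl
  simp only [← e, Phi_conj h4, he, ← Finset.mul_sum] at h1
  have h2 : (1 - χ ν ^ 2) * ∑ t : F, Phi χ (upperRightHom t) = 0 := by linear_combination -h1
  rcases mul_eq_zero.1 h2 with h3 | h3
  · exact absurd (sub_eq_zero.1 h3).symm hν
  · exact h3

lemma disc_of_mem {g : GL (Fin 2) F}
    (hg : mk g ∈ classClosure F (upperRightHom (1 : AlgebraicClosure F))) :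
    (g : Matrix (Fin 2) (Fin 2) F).trace ^ 2 = 4 * (g : Matrix (Fin 2) (Fin 2) F).det := by
  have := hg g rfl ((MvPolynomial.X (0, 0) + MvPolynomial.X (1, 1)) ^ 2 -
    4 * (MvPolynomial.X (0, 0) * MvPolynomial.X (1, 1) -
      MvPolynomial.X (0, 1) * MvPolynomial.X (1, 0))) (by
      intro h c
      have e1 : ((h * upperRightHom (1 : AlgebraicClosure F) * h⁻¹ : GL (Fin 2) _) :
          Matrix (Fin 2) (Fin 2) (AlgebraicClosure F)).det = 1 := by
        simp [Matrix.det_fin_two (A := !![(1 : AlgebraicClosure F), 1; 0, 1]), h.det_ne_zero]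
      have e2 : ((h * upperRightHom (1 : AlgebraicClosure F) * h⁻¹ : GL (Fin 2) _) :
          Matrix (Fin 2) (Fin 2) (AlgebraicClosure F)).trace = 2 := by
        rw [Units.val_mul, Units.val_mul, Matrix.trace_units_conj]
        simp
        norm_num
      rw [Matrix.det_fin_two] at e1
      rw [Matrix.trace_fin_two] at e2
      simp only [map_sub, map_pow, map_add, map_mul, MvPolynomial.eval_X, map_ofNat]
      generalize ((h * upperRightHom (1 : AlgebraicClosure F) * h⁻¹ : GL (Fin 2) _) :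
          Matrix (Fin 2) (Fin 2) (AlgebraicClosure F)) = m at e1 e2 ⊢
      linear_combination (c : AlgebraicClosure F) ^ 2 * (m 0 0 + m 1 1 + 2) * e2 -
        4 * (c : AlgebraicClosure F) ^ 2 * e1)
  simp only [map_sub, map_pow, map_add, map_mul, MvPolynomial.eval_X, map_ofNat] at this
  apply (algebraMap F (AlgebraicClosure F)).injective
  rw [Matrix.det_fin_two, Matrix.trace_fin_two]
  simp only [map_sub, map_pow, map_add, map_mul, map_ofNat]
  linear_combination this

lemma mem_of_conj (h : GL (Fin 2) F) (c : Fˣ) :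
    mk (h * upperRightHom (1 : F) * h⁻¹ * scalar (Fin 2) c) ∈
      classClosure F (upperRightHom (1 : AlgebraicClosure F)) := by
  intro g hg P hP
  obtain ⟨e, he⟩ := mk_eq_mk_iff.1 hg.symm
  have := hP (GeneralLinearGroup.map (algebraMap F (AlgebraicClosure F)) h)
    (Units.map (algebraMap F (AlgebraicClosure F) : F →* _) (c * e))
  rw [← this]
  congr 2
  funext ij
  have hu : upperRightHom (1 : AlgebraicClosure F) =
      GeneralLinearGroup.map (algebraMap F (AlgebraicClosure F)) (upperRightHom (1 : F)) := by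
    apply Units.ext
    ext i j
    fin_cases i <;> fin_cases j <;> simp
  rw [hu, ← map_inv, ← map_mul, ← map_mul, ← he]
  generalize h * upperRightHom (1 : F) * h⁻¹ = m
  obtain ⟨i, j⟩ := ij
  simp [Matrix.mul_diagonal]
  ring

end aux

theorem result (F : Type) [Field F] [Fintype F] (hq : Fintype.card F % 4 = 1) :
    ∃ f : PGL(2, F) → ℂ,
      IsWeaklyCuspidalOn (classClosure F (upperRightHom (1 : AlgebraicClosure F))) f ∧
      ¬ ∃ φ : PGL(2, F) → ℂ, IsCuspidal φ ∧
        ∀ y ∈ classClosure F (upperRightHom (1 : AlgebraicClosure F)), φ y = f y := by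
  classical
  have hq1 : 1 < Fintype.card F := Fintype.one_lt_card
  obtain ⟨χ, hχ⟩ := MulChar.exists_mulChar_orderOf F (R := ℂ) (n := 4) (by omega)
    Complex.isPrimitiveRoot_I
  have h4 : χ ^ 4 = 1 := hχ ▸ pow_orderOf_eq_one χ
  have h2ne : χ ^ 2 ≠ 1 := pow_ne_one_of_lt_orderOf (by norm_num) (by omega)
  obtain ⟨ν, hν⟩ := MulChar.ne_one_iff.1 h2ne
  rw [MulChar.pow_apply_coe] at hν
  have hq2 : Fintype.card F % 2 = 1 := by omega
  have h2 : (2 : F) ≠ 0 := by
    intro h
    have := FiniteField.even_card_of_char_two (F := F) ((ringChar.spec F 2).1 (by exact_mod_cast h)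
      |> fun hd => by
        rcases (Nat.dvd_prime Nat.prime_two).1 hd with h1 | h1
        · exact absurd h1 (CharP.ringChar_ne_one)
        · exact h1)
    omega
  let f : PGL(2, F) → ℂ := fun y => (starRingEnd ℂ) (Phi χ (Function.surjInv mk_surjective y))
  have hf : ∀ x : GL (Fin 2) F, f (mk x) = (starRingEnd ℂ) (Phi χ x) := by
    intro x
    obtain ⟨c, hc⟩ := mk_eq_mk_iff.1 (Function.surjInv_eq mk_surjective (mk x))
    simp only [f]
    rw [← Phi_scalar χ _ c, hc]
  refine ⟨f, ?_, ?_⟩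
  · rintro g U ⟨h, rfl⟩ hU
    induction g using Matrix.ProjGenLinGroup.induction_on with | mk g =>
    induction h using Matrix.ProjGenLinGroup.induction_on with | mk h =>
    rw [sum_radical h (fun u => f (mk g * u))]
    set g' := h⁻¹ * g * h with hg'
    have e : ∀ t : F, g * (h * upperRightHom t * h⁻¹) = h * (g' * upperRightHom t) * h⁻¹ := by
      intro t; rw [hg']; group
    have hD : ∀ t : F, (g' 0 0 + g' 1 1 + g' 1 0 * t) ^ 2 =
        4 * (g' 0 0 * g' 1 1 - g' 0 1 * g' 1 0) := by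
      intro t
      have := hU _ ⟨t, rfl⟩
      rw [← map_inv, ← map_mul, ← map_mul, ← map_mul, e] at this
      have := disc_of_mem this
      rw [Units.val_mul, Units.val_mul, Matrix.trace_units_conj, Matrix.det_units_conj,
        Matrix.det_fin_two, Matrix.trace_fin_two] at this
      simp [Matrix.mul_apply, Fin.sum_univ_two] at this
      linear_combination this
    have hc0 : g' 1 0 = 0 := by
      have : 2 * (g' 1 0) ^ 2 = 0 := by linear_combination hD 1 + hD (-1) - 2 * hD 0
      simpa [h2] using this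
    have had : g' 0 0 = g' 1 1 := by
      have : (g' 0 0 - g' 1 1) ^ 2 = 0 := by
        have := hD 0
        rw [hc0] at this
        linear_combination this
      exact sub_eq_zero.1 (pow_eq_zero_iff (by norm_num) |>.1 this)
    have ha0 : g' 0 0 ≠ 0 := by
      intro h0
      have := g'.det_ne_zero
      rw [Matrix.det_fin_two, h0, hc0] at this
      simp at this
    have e2 : ∀ t : F, g' * upperRightHom t =
        upperRightHom (t + g' 0 1 / g' 0 0) * scalar (Fin 2) (Units.mk0 _ ha0) := by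
      intro t
      apply Units.ext
      ext i j
      fin_cases i <;> fin_cases j <;> simp [Matrix.mul_apply, Fin.sum_univ_two, hc0, ← had]
      field_simp
    simp only [← map_mul, hf, e, Phi_conj h4, e2, Phi_scalar]
    rw [← map_sum, ← Finset.mul_sum]
    have h1 : ∑ t : F, Phi χ (upperRightHom (t + g' 0 1 / g' 0 0)) =
        ∑ t : F, Phi χ (upperRightHom t) :=
      Fintype.sum_equiv (Equiv.addRight _) _ _ fun t => rfl
    rw [h1, sum_u h4 hν ν.ne_zero, mul_zero, map_zero]
  · rintro ⟨φ, hφ, hres⟩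
    have h0 := orth χ hφ
    have h1 : ∀ x : GL (Fin 2) F, Phi χ x * φ (mk x) = ((Complex.normSq (Phi χ x) : ℝ) : ℂ) := by
      intro x
      by_cases hx : Phi χ x = 0
      · simp [hx]
      · obtain ⟨h, c, hxe⟩ := supp hq2 h4 hν ν.ne_zero hx
        rw [hres (mk x) (hxe ▸ mem_of_conj h c), hf, Complex.mul_conj]
    simp only [h1] at h0
    rw [← Complex.ofReal_sum, Complex.ofReal_eq_zero,
      Finset.sum_eq_zero_iff_of_nonneg (fun x _ => Complex.normSq_nonneg _)] at h0
    exact Phi_u h4 (Complex.normSq_eq_zero.1 (h0 _ (Finset.mem_univ _)))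

end Pool.Agent.Results.MP_21a573_al.UnipotentCone
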